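import Mathlib
import Pool.Agent.R493.SI.Nest
import Pool.Agent.Y827.RO.NarF
/-!
# Pairs of positions which are good for several families of linear forms at several scales
-/

namespace Pool.Agent.R493.SC

open Finset Filter
open Pool.Agent.Y827.GS (cntN cntN_anti Adf)
open Pool.Agent.R493.OT (prs)
open Pool.Agent.R493.SI (mR mR_pos densN AllR Cliques)

open Classical in
/-- any `T ≤ r` classes of `K` linear forms have `5 T / 18` members of different classes which are often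
prime together, at every scale -/
theorem classesN (r : ℕ) : ∃ K C : ℕ, 1 ≤ K ∧ ∀ A : ℕ, ∃ N₀ : ℕ, ∀ N : ℕ, N₀ ≤ N →
    ∀ T : ℕ, T ≤ r → ∀ H : Fin T → Fin K → ℤ × ℤ,
    Function.Injective (fun x : Fin T × Fin K => H x.1 x.2) →
    (∀ g i, Adf A N (H g i)) →
    (∀ p : ℕ, p.Prime → p ≤ r * K → ∃ r : ℤ, ∀ g i, ¬ (p : ℤ) ∣ (H g i).1 * r + (H g i).2) →
    ∃ (S : Finset (Fin T)) (c : Fin T → Fin K), 5 * T ≤ 18 * S.card ∧
      (N : ℝ) / (Real.log N) ^ C ≤ (cntN (S.image (fun g => H g (c g))) N : ℝ) := by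
  choose Kf hKf1 hKf using Pool.Agent.Y827.RO.lamRD
  set K : ℕ := ∑ T ∈ range (r + 1), Kf T with hK
  set C : ℕ := ∑ T ∈ range (r + 1), (T * Kf T + 2) with hC
  have hle : ∀ T ≤ r, Kf T ≤ K := fun T hT =>
    Finset.single_le_sum (f := Kf) (fun _ _ => Nat.zero_le _) (mem_range.2 (by omega))
  have hle2 : ∀ T ≤ r, T * Kf T + 2 ≤ C := fun T hT =>
    Finset.single_le_sum (f := fun T => T * Kf T + 2) (fun _ _ => Nat.zero_le _)
      (mem_range.2 (by omega))
  have hK1 : 1 ≤ K := (hKf1 0).trans (hle 0 (Nat.zero_le _))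
  refine ⟨K, C, hK1, fun A => ?_⟩
  have hlog : ∀ᶠ N : ℕ in atTop, (1 : ℝ) ≤ Real.log N :=
    (Real.tendsto_log_atTop.comp tendsto_natCast_atTop_atTop).eventually_ge_atTop _
  have hall : ∀ᶠ N : ℕ in atTop, ∀ T : Fin (r + 1), 1 ≤ (T : ℕ) → ∀ H : Fin (T : ℕ) → Fin (Kf T) → ℤ × ℤ,
      Function.Injective (fun x : Fin (T : ℕ) × Fin (Kf T) => H x.1 x.2) → (∀ g i, Adf A N (H g i)) →
      (∀ p : ℕ, p.Prime → p ≤ T * Kf T → ∃ r : ℤ, ∀ g i, ¬ (p : ℤ) ∣ (H g i).1 * r + (H g i).2) →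
      ∃ (S : Finset (Fin (T : ℕ))) (c : Fin (T : ℕ) → Fin (Kf T)), ((T : ℕ) : ℝ) ≤ (18 / 5) * (S.card : ℝ) ∧
        (N : ℝ) / (Real.log N) ^ ((T : ℕ) * Kf T + 2) ≤ (cntN (S.image (fun g => H g (c g))) N : ℝ) := by
    rw [eventually_all]
    intro T
    by_cases h0 : 1 ≤ (T : ℕ)
    · filter_upwards [hKf T h0 A] with N hN _
      exact hN
    · exact Eventually.of_forall fun x h => absurd h h0
  obtain ⟨N₀, hN₀⟩ := eventually_atTop.1 (hall.and hlog)
  refine ⟨N₀, fun N hN T hTr H hinj hAd hloc => ?_⟩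
  obtain ⟨h1, hl⟩ := hN₀ N hN
  rcases Nat.eq_zero_or_pos T with hT0 | hT
  · subst hT0
    refine ⟨∅, fun _ => ⟨0, hK1⟩, by simp, ?_⟩
    unfold cntN
    simp only [image_empty, notMem_empty, false_imp_iff, implies_true, filter_true,
      Nat.card_Icc, Nat.add_sub_cancel]
    exact div_le_self (Nat.cast_nonneg _) (one_le_pow₀ hl)
  set H' : Fin T → Fin (Kf T) → ℤ × ℤ := fun g i => H g (Fin.castLE (hle T hTr) i) with hH'
  have hinj' : Function.Injective (fun x : Fin T × Fin (Kf T) => H' x.1 x.2) := by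
    intro x y hxy
    have h1 := hinj (a₁ := (x.1, Fin.castLE (hle T hTr) x.2)) (a₂ := (y.1, Fin.castLE (hle T hTr) y.2)) hxy
    rw [Prod.mk.injEq] at h1
    exact Prod.ext h1.1 (Fin.castLE_injective _ h1.2)
  obtain ⟨S, c, h3, h4⟩ := h1 ⟨T, by omega⟩ hT H' hinj' (fun g i => hAd _ _)
    (fun p hp hle' => by
      obtain ⟨r', hr'⟩ := hloc p hp (hle'.trans (Nat.mul_le_mul hTr (hle T hTr)))
      exact ⟨r', fun g i => hr' _ _⟩)
  refine ⟨S, fun g => Fin.castLE (hle T hTr) (c g), ?_, le_trans ?_ h4⟩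
  · have h5 : (5 * T : ℝ) ≤ 18 * S.card := by
      simp only at h3
      linarith
    exact_mod_cast h5
  · exact div_le_div_of_nonneg_left (Nat.cast_nonneg _) (by positivity)
      (pow_le_pow_right₀ hl (hle2 T hTr))

/-- the `i`-th of `m` consecutive blocks of `b` elements of `V` -/
noncomputable def blk (V : Finset ℕ) (b i : ℕ) : Finset ℕ :=
  (univ.filter (fun t : Fin V.card => i * b ≤ (t : ℕ) ∧ (t : ℕ) < (i + 1) * b)).image
    (V.orderEmbOfFin rfl)

theorem blk_sub (V : Finset ℕ) (b i : ℕ) : blk V b i ⊆ V := by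
  intro v hv
  obtain ⟨t, _, rfl⟩ := mem_image.1 hv
  exact V.orderEmbOfFin_mem rfl t

theorem blk_card (V : Finset ℕ) {b m i : ℕ} (hb : m * b ≤ V.card) (hi : i < m) :
    (blk V b i).card = b := by
  unfold blk
  rw [card_image_of_injective _ (V.orderEmbOfFin rfl).injective]
  have h1 : (i + 1) * b ≤ V.card := (Nat.mul_le_mul_right b hi).trans hb
  have h2 : (univ.filter (fun t : Fin V.card => i * b ≤ (t : ℕ) ∧ (t : ℕ) < (i + 1) * b)).image
      (fun t : Fin V.card => (t : ℕ)) = Ico (i * b) ((i + 1) * b) := by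
    ext x
    simp only [mem_image, mem_filter, mem_univ, true_and, mem_Ico]
    constructor
    · rintro ⟨t, h3, rfl⟩
      exact h3
    · intro h3
      exact ⟨⟨x, by omega⟩, h3, rfl⟩
  rw [← card_image_of_injective _ (f := fun t : Fin V.card => (t : ℕ)) Fin.val_injective, h2,
    Nat.card_Ico, Nat.add_mul, one_mul, Nat.add_sub_cancel_left]

theorem blk_lt (V : Finset ℕ) {b i j u v : ℕ} (hij : i < j) (hu : u ∈ blk V b i) (hv : v ∈ blk V b j) :
    u < v := by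
  obtain ⟨s, hs, rfl⟩ := mem_image.1 hu
  obtain ⟨t, ht, rfl⟩ := mem_image.1 hv
  have h1 := (mem_filter.1 hs).2
  have h2 := (mem_filter.1 ht).2
  have h3 : (i + 1) * b ≤ j * b := Nat.mul_le_mul_right b hij
  apply (V.orderEmbOfFin rfl).strictMono
  show (s : ℕ) < t
  omega

open Classical in
/-- pairs of positions which are good for several families of linear forms at several scales -/
theorem pairsSC (R : ℕ) (ε : ℝ) (hε : 0 < ε) : ∃ n₀ C P : ℕ, ∀ A : ℕ, ∃ N₀ : ℕ,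
    ∀ N : Fin R → ℕ, (∀ ρ, N₀ ≤ N ρ) → ∀ V : Finset ℕ, n₀ ≤ V.card → ∀ L : Fin R → ℕ → ℤ × ℤ,
    (∀ ρ, Set.InjOn (L ρ) V) → (∀ ρ, ∀ v ∈ V, Adf A (N ρ) (L ρ v)) →
    (∀ ρ, ∀ p : ℕ, p.Prime → p ≤ P → ∃ r : ℤ, ∀ v ∈ V, ¬ (p : ℤ) ∣ (L ρ v).1 * r + (L ρ v).2) →
    (1 / (mR R : ℝ) - ε) * (V.card : ℝ) ^ 2 / 2 ≤ (((V ×ˢ V).filter (fun y => y.1 < y.2 ∧
      ∀ ρ, (N ρ : ℝ) / (Real.log (N ρ)) ^ C ≤ (cntN {L ρ y.1, L ρ y.2} (N ρ) : ℝ))).card : ℝ) := by
  obtain ⟨K, C, hK, hcl⟩ := classesN (mR R + 1)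
  obtain ⟨m, hm⟩ := exists_nat_gt (4 / ε + 4)
  have hm4 : (4 : ℝ) < m := by
    have : 0 < 4 / ε := by positivity
    linarith
  have hm0 : 0 < m := by
    have : (0 : ℝ) < m := by linarith
    exact_mod_cast this
  obtain ⟨Nd, hNd1, hNd⟩ := densN R m K
  obtain ⟨n₁, hn₁⟩ := exists_nat_gt (8 * m / ε)
  refine ⟨max (m * Nd) n₁, C, (mR R + 1) * K, fun A => ?_⟩
  obtain ⟨N₀, hN₀⟩ := hcl A
  refine ⟨N₀, fun N hN V hV L hinj hAd hloc => ?_⟩
  have hV1 : m * Nd ≤ V.card := (le_max_left _ _).trans hV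
  have hV2 : (8 * m / ε : ℝ) < V.card := hn₁.trans_le (by exact_mod_cast (le_max_right _ _).trans hV)
  set b : ℕ := V.card / m with hb
  have hmb : m * b ≤ V.card := Nat.mul_div_le _ _
  have hbN : Nd ≤ b := by
    rw [hb, Nat.le_div_iff_mul_le hm0, mul_comm]
    exact hV1
  have hbc : ∀ i : Fin m, (blk V b i).card = b := fun i => blk_card V hmb i.2
  have hmain := hNd ℕ (fun ρ _ _ u v => (N ρ : ℝ) / (Real.log (N ρ)) ^ C ≤
      (cntN {L ρ u, L ρ v} (N ρ) : ℝ)) (fun i : Fin m => blk V b i)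
    (fun i => by rw [hbc]; exact hbN) (by
      intro ρ t ht A' hA' hmem
      set e := t.orderEmbOfFin rfl with he
      have hemem : ∀ g, e g ∈ t := fun g => t.orderEmbOfFin_mem rfl g
      have hAV : ∀ i k, A' i k ∈ V := fun i k => blk_sub V b i (hmem i k)
      obtain ⟨S, c, hS, hc⟩ := hN₀ (N ρ) (hN ρ) t.card ht (fun g i => L ρ (A' (e g) i))
        (by
          intro x y hxy
          have h1 := hinj ρ (hAV _ _) (hAV _ _) hxy
          rcases lt_trichotomy x.1 y.1 with h4 | h4 | h4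
          · exact absurd h1 (blk_lt V (e.strictMono h4) (hmem _ _) (hmem _ _)).ne
          · rw [h4] at h1
            exact Prod.ext h4 (hA' _ h1)
          · exact absurd h1 (blk_lt V (e.strictMono h4) (hmem _ _) (hmem _ _)).ne')
        (fun g i => hAd ρ _ (hAV _ _))
        (fun p hp hple => by
          obtain ⟨r, hr⟩ := hloc ρ p hp hple
          exact ⟨r, fun g i => hr _ (hAV _ _)⟩)
      refine ⟨S.map e.toEmbedding, ?_, ?_, Function.extend e c (fun _ => ⟨0, hK⟩), ?_⟩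
      · intro i hi
        obtain ⟨g, _, rfl⟩ := Finset.mem_map.1 hi
        exact hemem g
      · rw [card_map]
        exact hS
      · intro i hi j hj hij
        obtain ⟨g, hgS, rfl⟩ := Finset.mem_map.1 hi
        obtain ⟨g', hgS', rfl⟩ := Finset.mem_map.1 hj
        have e1 : (e.toEmbedding : Fin t.card → Fin m) = e := rfl
        simp only [e1]
        rw [e.injective.extend_apply, e.injective.extend_apply]
        refine hc.trans ?_
        rw [Nat.cast_le]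
        apply cntN_anti
        intro f hf
        rw [mem_insert, mem_singleton] at hf
        rcases hf with rfl | rfl
        · exact mem_image.2 ⟨g, hgS, rfl⟩
        · exact mem_image.2 ⟨g', hgS', rfl⟩)
  set G := (V ×ˢ V).filter (fun y => y.1 < y.2 ∧
      ∀ ρ, (N ρ : ℝ) / (Real.log (N ρ)) ^ C ≤ (cntN {L ρ y.1, L ρ y.2} (N ρ) : ℝ)) with hG
  -- the pairs of different blocks
  have hsum : ∑ p ∈ prs m, (∑ u ∈ blk V b p.1, ∑ v ∈ blk V b p.2,
      (if AllR (fun (ρ : Fin R) (_ _ : Fin m) (u v : ℕ) => (N ρ : ℝ) / (Real.log (N ρ)) ^ C ≤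
      (cntN {L ρ u, L ρ v} (N ρ) : ℝ)) p.1 p.2 u v then (1 : ℝ) else 0)) ≤ (G.card : ℝ) := by
    have e1 : ∀ p ∈ prs m, (∑ u ∈ blk V b p.1, ∑ v ∈ blk V b p.2,
      (if AllR (fun (ρ : Fin R) (_ _ : Fin m) (u v : ℕ) => (N ρ : ℝ) / (Real.log (N ρ)) ^ C ≤
      (cntN {L ρ u, L ρ v} (N ρ) : ℝ)) p.1 p.2 u v then (1 : ℝ) else 0)) =
      ((G.filter (fun y => y.1 ∈ blk V b p.1 ∧ y.2 ∈ blk V b p.2)).card : ℝ) := by
      intro p hp
      have hlt : (p.1 : ℕ) < p.2 := (mem_filter.1 hp).2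
      rw [← Finset.sum_product', ← Finset.sum_filter, Finset.sum_const, nsmul_eq_mul, mul_one,
        Nat.cast_inj]
      congr 1
      ext y
      simp only [hG, mem_filter, mem_product, AllR]
      constructor
      · rintro ⟨⟨h1, h2⟩, h3⟩
        exact ⟨⟨⟨blk_sub _ _ _ h1, blk_sub _ _ _ h2⟩, blk_lt V hlt h1 h2, h3⟩, h1, h2⟩
      · rintro ⟨⟨_, _, h3⟩, h1, h2⟩
        exact ⟨⟨h1, h2⟩, h3⟩
    rw [Finset.sum_congr rfl e1, ← Nat.cast_sum, Nat.cast_le, ← Finset.card_biUnion]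
    · apply card_le_card
      intro y hy
      obtain ⟨p, _, h1⟩ := mem_biUnion.1 hy
      exact (mem_filter.1 h1).1
    · intro p hp p' hp' hne
      rw [Function.onFun, Finset.disjoint_left]
      intro y h1 h2
      apply hne
      obtain ⟨_, h3, h4⟩ := mem_filter.1 h1
      obtain ⟨_, h5, h6⟩ := mem_filter.1 h2
      have key : ∀ (i j : Fin m) (z : ℕ), z ∈ blk V b i → z ∈ blk V b j → i = j := by
        intro i j z hi hj
        rcases lt_trichotomy i j with h | h | h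
        · exact absurd (blk_lt V h hi hj) (lt_irrefl _)
        · exact h
        · exact absurd (blk_lt V h hj hi) (lt_irrefl _)
      exact Prod.ext (key _ _ _ h3 h5) (key _ _ _ h4 h6)
  have hb0 : (0 : ℝ) < b := by exact_mod_cast lt_of_lt_of_le (by omega) hbN
  have h2 : ((m : ℝ) ^ 2 / (mR R : ℝ) - m) / 2 - 1 ≤ (G.card : ℝ) / (b * b) := by
    refine hmain.trans ?_
    have e2 : ∀ p ∈ prs m, ((∑ u ∈ blk V b p.1, ∑ v ∈ blk V b p.2,
      (if AllR (fun (ρ : Fin R) (_ _ : Fin m) (u v : ℕ) => (N ρ : ℝ) / (Real.log (N ρ)) ^ C ≤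
      (cntN {L ρ u, L ρ v} (N ρ) : ℝ)) p.1 p.2 u v then (1 : ℝ) else 0)) /
        (((blk V b p.1).card : ℝ) * ((blk V b p.2).card : ℝ))) =
      (∑ u ∈ blk V b p.1, ∑ v ∈ blk V b p.2,
      (if AllR (fun (ρ : Fin R) (_ _ : Fin m) (u v : ℕ) => (N ρ : ℝ) / (Real.log (N ρ)) ^ C ≤
      (cntN {L ρ u, L ρ v} (N ρ) : ℝ)) p.1 p.2 u v then (1 : ℝ) else 0)) / (b * b) := by
      intro p _
      rw [hbc, hbc]
    rw [Finset.sum_congr rfl e2, ← Finset.sum_div]
    exact div_le_div_of_nonneg_right hsum (by positivity)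
  rw [le_div_iff₀ (by positivity)] at h2
  -- arithmetic
  set x : ℝ := 1 / (mR R : ℝ) with hx
  have hx0 : 0 < x := by
    have := mR_pos R
    have : (0 : ℝ) < mR R := by exact_mod_cast this
    positivity
  have hx1 : x ≤ 1 := by
    rw [hx, div_le_one (by exact_mod_cast mR_pos R)]
    exact_mod_cast mR_pos R
  have hmx : (m : ℝ) ^ 2 / (mR R : ℝ) = m ^ 2 * x := by rw [hx]; ring
  rw [hmx] at h2
  have hG0 : (0 : ℝ) ≤ G.card := Nat.cast_nonneg _
  have hc0 : (0 : ℝ) ≤ (V.card : ℝ) ^ 2 := by positivity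
  rcases le_or_gt x ε with hxe | hxe
  · have : (x - ε) * (V.card : ℝ) ^ 2 / 2 ≤ 0 := by
      have := mul_nonpos_of_nonpos_of_nonneg (by linarith : x - ε ≤ 0) hc0
      linarith
    linarith
  have hε1 : ε < 1 := hxe.trans_le hx1
  have hm1 : 4 < m * ε := by
    have h13 : 4 / ε * ε = 4 := by field_simp
    nlinarith
  have hbm : (V.card : ℝ) - m ≤ m * b := by
    have h5 : V.card < m * (b + 1) := by
      rw [hb]
      exact Nat.lt_mul_div_succ _ hm0
    have h6 : (V.card : ℝ) < m * (b + 1) := by exact_mod_cast h5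
    linarith
  have hVm : 8 * (m : ℝ) < V.card * ε := by
    rw [div_lt_iff₀ hε] at hV2
    exact hV2
  have hcV : (0 : ℝ) < V.card := by nlinarith
  have h7 : (V.card : ℝ) * (1 - ε / 8) ≤ m * b := by nlinarith
  have h8 : (V.card : ℝ) ^ 2 * (1 - ε / 4) ≤ (m * b) ^ 2 := by
    have h9 : (0 : ℝ) ≤ V.card * (1 - ε / 8) := by
      apply mul_nonneg hcV.le
      linarith
    have h10 := pow_le_pow_left₀ h9 h7 2
    refine le_trans ?_ h10
    rw [mul_pow]
    apply mul_le_mul_of_nonneg_left _ hc0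
    nlinarith
  have h9 : (x - ε / 2) * (m * b) ^ 2 / 2 ≤ G.card := by
    refine le_trans ?_ h2
    have h10 : (x - ε / 2) * (m : ℝ) ^ 2 / 2 ≤ (m ^ 2 * x - m) / 2 - 1 := by nlinarith
    have h11 := mul_le_mul_of_nonneg_right h10 (by positivity : (0 : ℝ) ≤ b * b)
    refine le_trans (le_of_eq ?_) h11
    ring
  have h10 : (x - ε) * (V.card : ℝ) ^ 2 ≤ (x - ε / 2) * (m * b) ^ 2 := by
    have h11 : (x - ε / 2) * ((V.card : ℝ) ^ 2 * (1 - ε / 4)) ≤ (x - ε / 2) * (m * b) ^ 2 :=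
      mul_le_mul_of_nonneg_left h8 (by linarith)
    refine le_trans ?_ h11
    have h12 : (x - ε) ≤ (x - ε / 2) * (1 - ε / 4) := by nlinarith
    calc (x - ε) * (V.card : ℝ) ^ 2 ≤ ((x - ε / 2) * (1 - ε / 4)) * (V.card : ℝ) ^ 2 :=
          mul_le_mul_of_nonneg_right h12 hc0
      _ = _ := by ring
  linarith

end Pool.Agent.R493.SC
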