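import Mathlib
import Pool.Agent.R493.CP.Nest
import Pool.Agent.R493.SC.Pairs
/-!
# Tuples of positions which are good for several families of linear forms at several scales
-/

namespace Pool.Agent.R493.SC

open Finset Filter
open Pool.Agent.Y827.GS (cntN cntN_anti Adf)
open Pool.Agent.W25.QL (main_gen count_pow QProp)
open Pool.Agent.R493.CP (nestG)

/-- the forms of all positions in `F` are often prime together -/
def Pf (L : ℕ → ℤ × ℤ) (C N : ℕ) (F : Finset ℕ) : Prop :=
  (N : ℝ) / (Real.log N) ^ C ≤ (cntN (F.image L) N : ℝ)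

theorem Pf_anti (L : ℕ → ℤ × ℤ) (C N : ℕ) (F F' : Finset ℕ) (h : F' ⊆ F) (hF : Pf L C N F) :
    Pf L C N F' := by
  unfold Pf at hF ⊢
  refine hF.trans ?_
  exact_mod_cast cntN_anti (image_subset_image h) N

open Classical in
/-- tuples of positions which are good for several families of linear forms at several scales -/
theorem tuplesSC (R k : ℕ) (ε : ℝ) (hε : 0 < ε) : ∃ n₀ C P : ℕ, ∀ A : ℕ, ∃ N₀ : ℕ,
    ∀ N : Fin R → ℕ, (∀ ρ, N₀ ≤ N ρ) → ∀ V : Finset ℕ, n₀ ≤ V.card → ∀ L : Fin R → ℕ → ℤ × ℤ,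
    (∀ ρ, Set.InjOn (L ρ) V) → (∀ ρ, ∀ v ∈ V, Adf A (N ρ) (L ρ v)) →
    (∀ ρ, ∀ p : ℕ, p.Prime → p ≤ P → ∃ r : ℤ, ∀ v ∈ V, ¬ (p : ℤ) ∣ (L ρ v).1 * r + (L ρ v).2) →
    ((5 / 18) ^ (R * k) - ε) * (V.card : ℝ) ^ (k + 1) ≤
      (((Fintype.piFinset (fun _ : Fin (k + 1) => V)).filter (fun y => Function.Injective y ∧
        ∀ ρ, Pf (L ρ) C (N ρ) (univ.image y))).card : ℝ) := by
  choose Kc Cc hKc hcl using classesN
  choose K₂ hK₂ using (fun T => nestG R T (Kc T))
  have hlam : (0 : ℝ) < (18 / 5) ^ R := by positivity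
  obtain ⟨T, M, hT, hM⟩ := main_gen (lam := (18 / 5) ^ R) hlam k ((5 / 18) ^ (R * k))
    (pow_le_one₀ (by norm_num) (by norm_num)) (by
      intro ε hε
      have e : ((5 : ℝ) / 18) ^ (R * k) = (1 / (18 / 5) ^ R) ^ k := by
        rw [pow_mul, one_div, ← inv_pow]
        norm_num
      rw [e]
      exact count_pow (one_le_pow₀ (by norm_num)) k ε hε) ε hε K₂
  obtain ⟨n₀, hn₀⟩ := hM Unit
  set C : ℕ := ∑ T' ∈ range (M + 1), Cc T' with hCdef
  refine ⟨n₀, C, ∑ T' ∈ range (M + 1), T' * Kc T', fun A => ?_⟩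
  choose Nf hNf using (fun T => hcl T A)
  have hlog : ∀ᶠ N : ℕ in atTop, (1 : ℝ) ≤ Real.log N :=
    (Real.tendsto_log_atTop.comp tendsto_natCast_atTop_atTop).eventually_ge_atTop _
  obtain ⟨N₁, hN₁⟩ := eventually_atTop.1 hlog
  refine ⟨max N₁ (∑ T' ∈ range (M + 1), Nf T'), fun N hN V hV L hinj hAd hloc => ?_⟩
  have hNl : ∀ ρ, (1 : ℝ) ≤ Real.log (N ρ) := fun ρ => hN₁ _ ((le_max_left _ _).trans (hN ρ))
  have hNT : ∀ ρ, ∀ T' ≤ M, Nf T' ≤ N ρ := fun ρ T' hT' =>
    (Finset.single_le_sum (f := Nf) (fun _ _ => Nat.zero_le _) (mem_range.2 (by omega))).trans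
      ((le_max_right _ _).trans (hN ρ))
  refine (hn₀ ℕ V (fun _ => ()) (fun F => ∀ ρ, Pf (L ρ) C (N ρ) F) hV
    (fun F F' hF h ρ => Pf_anti _ _ _ _ _ hF (h ρ)) ?_).trans (le_of_eq ?_)
  · intro T' hT'1 hT'M H hHV hHinj _
    obtain ⟨S, c, hS, hG⟩ := hK₂ T' ℕ (fun ρ F => Pf (L ρ) C (N ρ) F)
      (fun ρ F F' h1 h2 => Pf_anti _ _ _ _ _ h1 h2) H hHinj (by
      intro ρ t A' hA' hA'inj
      have hAV : ∀ g i, A' g i ∈ V := fun g i => by
        obtain ⟨j, hj⟩ := hA' g i
        rw [hj]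
        exact hHV g j
      have htT : t.card ≤ T' := by
        have := card_le_univ t
        rwa [Fintype.card_fin] at this
      set e := t.orderEmbOfFin rfl with he
      have hemem : ∀ g, e g ∈ t := fun g => t.orderEmbOfFin_mem rfl g
      obtain ⟨S, c, hS, hc⟩ := hNf T' (N ρ) (hNT ρ T' hT'M) t.card htT
        (fun g i => L ρ (A' (e g) i)) (by
          intro x y hxy
          have h2 := hinj ρ (hAV _ _) (hAV _ _) hxy
          have h3 := hA'inj (a₁ := (e x.1, x.2)) (a₂ := (e y.1, y.2)) h2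
          rw [Prod.mk.injEq] at h3
          exact Prod.ext (e.injective h3.1) h3.2)
        (fun g i => hAd ρ _ (hAV _ _))
        (fun p hp hple => by
          obtain ⟨r, hr⟩ := hloc ρ p hp (hple.trans
            (Finset.single_le_sum (f := fun T' => T' * Kc T') (fun _ _ => Nat.zero_le _)
              (mem_range.2 (by omega))))
          exact ⟨r, fun g i => hr _ (hAV _ _)⟩)
      refine ⟨S.map e.toEmbedding, ?_, ?_,
        Function.extend e c (fun _ => ⟨0, hKc T'⟩), ?_⟩
      · intro i hi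
        obtain ⟨g, _, rfl⟩ := Finset.mem_map.1 hi
        exact hemem g
      · rw [card_map]
        exact hS
      · unfold Pf
        have e1 : ((S.map e.toEmbedding).image (fun g => A' g ((Function.extend e
            c (fun _ => ⟨0, hKc T'⟩)) g))).image (L ρ) =
            S.image (fun g => L ρ (A' (e g) (c g))) := by
          rw [Finset.map_eq_image, image_image, image_image]
          apply image_congr
          intro g _
          have e2 : (e.toEmbedding : Fin t.card → Fin T') = e := rfl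
          simp only [Function.comp, e2]
          rw [e.injective.extend_apply]
        rw [e1]
        refine le_trans ?_ hc
        exact div_le_div_of_nonneg_left (Nat.cast_nonneg _) (by have := hNl ρ; positivity)
          (pow_le_pow_right₀ (hNl ρ) (single_le_sum (f := Cc)
            (fun _ _ => Nat.zero_le _) (mem_range.2 (by omega)))))
    refine ⟨S, c, ?_, hG⟩
    have h5 : ((5 : ℝ) ^ R * T' : ℝ) ≤ 18 ^ R * S.card := by exact_mod_cast hS
    rw [div_pow, div_mul_eq_mul_div, le_div_iff₀ (by positivity)]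
    linarith
  · congr!

end Pool.Agent.R493.SC
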