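import Mathlib
import Pool.Agent.R493.SC.Tup
/-!
# The forms `d ^ v n + c` for several pairs `(d, c)` at several scales
-/

namespace Pool.Agent.R493.SC

open Finset Filter
open Pool.Agent.Y827.GS (cntN cntN_anti Adf)
open Pool.Agent.R493.SI (mR mR_pos)

/-- the losses by a constant factor -/
theorem log_loss (C a : ℕ) (ha : 1 ≤ a) : ∃ N₁ : ℕ, ∀ N : ℕ, N₁ ≤ N →
    (N : ℝ) / (Real.log N) ^ (C + 1) ≤ ((a * N : ℕ) : ℝ) / (Real.log ((a * N : ℕ) : ℝ)) ^ C := by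
  have h1 : ∀ᶠ N : ℕ in atTop, (2 : ℝ) ^ C + Real.log a + 1 ≤ Real.log N :=
    (Real.tendsto_log_atTop.comp tendsto_natCast_atTop_atTop).eventually_ge_atTop _
  obtain ⟨N₁, hN₁⟩ := eventually_atTop.1 (h1.and (eventually_ge_atTop 1))
  refine ⟨N₁, fun N hN => ?_⟩
  obtain ⟨h2, h3⟩ := hN₁ N hN
  have ha0 : (0 : ℝ) < a := by exact_mod_cast (by omega : 0 < a)
  have hN0 : (0 : ℝ) < N := by exact_mod_cast (by omega : 0 < N)
  have hla : 0 ≤ Real.log a := Real.log_nonneg (by exact_mod_cast ha)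
  have h2C : (0 : ℝ) < 2 ^ C := by positivity
  have hlN : 0 < Real.log N := by linarith
  have e : Real.log ((a * N : ℕ) : ℝ) = Real.log a + Real.log N := by
    push_cast
    exact Real.log_mul ha0.ne' hN0.ne'
  rw [e]
  have h4 : Real.log a + Real.log N ≤ 2 * Real.log N := by linarith
  have h5 : 0 < Real.log a + Real.log N := by linarith
  rw [div_le_div_iff₀ (by positivity) (by positivity)]
  have h6 : (Real.log a + Real.log N) ^ C ≤ (2 * Real.log N) ^ C := pow_le_pow_left₀ h5.le h4 C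
  have h7 : (2 * Real.log N) ^ C ≤ (Real.log N) ^ (C + 1) := by
    rw [mul_pow, pow_succ, mul_comm]
    exact mul_le_mul_of_nonneg_left (by linarith) (by positivity)
  push_cast
  have h8 : (1 : ℝ) ≤ a := by exact_mod_cast ha
  calc (N : ℝ) * (Real.log a + Real.log N) ^ C ≤ N * (Real.log N) ^ (C + 1) :=
        mul_le_mul_of_nonneg_left (h6.trans h7) hN0.le
    _ ≤ (a * N) * (Real.log N) ^ (C + 1) := by
        apply mul_le_mul_of_nonneg_right _ (by positivity)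
        nlinarith

/-- all conditions on the forms `d ^ v (n + N + E) + c` -/
theorem geo_adf {d E N W v : ℕ} {c : ℤ} (hd : 2 ≤ d) (hc : IsCoprime (d : ℤ) c) (hE : d ^ W ≤ E)
    (hcE : c.natAbs ≤ E) (hv : v ≤ W) (hN : E ≤ N) :
    Adf E (4 * E * N) ((d : ℤ) ^ v, (d : ℤ) ^ v * (N + E) + c) := by
  have hdv : d ^ v ≤ E := (Nat.pow_le_pow_right (by omega) hv).trans hE
  have hdvz : ((d : ℤ)) ^ v ≤ E := by exact_mod_cast hdv
  have h1 : (1 : ℤ) ≤ (d : ℤ) ^ v := one_le_pow₀ (by exact_mod_cast (by omega : 1 ≤ d))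
  have hNz : (E : ℤ) ≤ N := by exact_mod_cast hN
  have hEz : (1 : ℤ) ≤ E := h1.trans hdvz
  have hcz : |c| ≤ E := by
    rw [Int.abs_eq_natAbs]
    exact_mod_cast hcE
  have hc1 := abs_le.1 hcz
  refine ⟨by show (d : ℤ) ^ v ≠ 0; positivity, ?_, ?_, ?_, ?_⟩
  · show |(d : ℤ) ^ v| ≤ E
    rw [abs_of_pos (by positivity)]
    exact hdvz
  · show |(d : ℤ) ^ v * (N + E) + c| ≤ ((4 * E * N : ℕ) : ℤ)
    rw [abs_le]
    have h2 : (0 : ℤ) ≤ (d : ℤ) ^ v * (N + E) := by positivity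
    have h3 : (d : ℤ) ^ v * (N + E) ≤ E * (N + E) :=
      mul_le_mul_of_nonneg_right hdvz (by positivity)
    push_cast
    constructor <;> nlinarith
  · show IsCoprime ((d : ℤ) ^ v) ((d : ℤ) ^ v * (N + E) + c)
    exact (hc.pow_left (m := v)).mul_add_left_right _
  · intro t ht1 ht2
    have h1r : (1 : ℝ) ≤ (((d : ℤ) ^ v : ℤ) : ℝ) := by exact_mod_cast h1
    have hcr : (-(E : ℝ)) ≤ ((c : ℤ) : ℝ) := by exact_mod_cast hc1.1
    have hNr : (E : ℝ) ≤ N := by exact_mod_cast hN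
    have hE0 : (0 : ℝ) ≤ E := Nat.cast_nonneg _
    have ht0 : 0 ≤ t := le_trans (by positivity) ht1
    have e1 : ((((d : ℤ) ^ v * (N + E) + c : ℤ)) : ℝ) = (((d : ℤ) ^ v : ℤ) : ℝ) * (N + E) + (c : ℝ) := by
      push_cast; ring
    show ((4 * E * N : ℕ) : ℝ) / 24 ≤ (((d : ℤ) ^ v : ℤ) : ℝ) * t + ((((d : ℤ) ^ v * (N + E) + c : ℤ)) : ℝ)
    rw [e1]
    have h4 : t ≤ (((d : ℤ) ^ v : ℤ) : ℝ) * t := le_mul_of_one_le_left ht0 h1r
    have h5 : ((N : ℝ) + E) ≤ (((d : ℤ) ^ v : ℤ) : ℝ) * (N + E) := le_mul_of_one_le_left (by positivity) h1r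
    have h6 : ((4 * E * N : ℕ) : ℝ) / 24 ≤ ((4 * E * N : ℕ) : ℝ) / 16 := by
      have : (0 : ℝ) ≤ ((4 * E * N : ℕ) : ℝ) := Nat.cast_nonneg _
      linarith
    linarith

theorem geo_loc {d E N : ℕ} {c : ℤ} (hc : IsCoprime (d : ℤ) c) {p : ℕ} (hp : p.Prime) :
    ∃ r : ℤ, ∀ v : ℕ, ¬ (p : ℤ) ∣ (d : ℤ) ^ v * r + ((d : ℤ) ^ v * (N + E) + c) := by
  have hpz := Nat.prime_iff_prime_int.1 hp
  by_cases hpc : (p : ℤ) ∣ c
  · refine ⟨1 - (N + E), fun v hd => ?_⟩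
    have h1 : (p : ℤ) ∣ (d : ℤ) ^ v := by
      have e : (d : ℤ) ^ v * (1 - (N + E)) + ((d : ℤ) ^ v * (N + E) + c) = (d : ℤ) ^ v + c := by ring
      rw [e] at hd
      exact (Int.dvd_add_left hpc).1 hd
    have h2 := (hc.pow_left (m := v)).isUnit_of_dvd' h1 hpc
    exact hpz.not_isUnit h2
  · refine ⟨-(N + E), fun v hd => hpc ?_⟩
    have e : (d : ℤ) ^ v * (-(N + E)) + ((d : ℤ) ^ v * (N + E) + c) = c := by ring
    rwa [e] at hd

/-- the number of the `n` in `[N, D N]` such that `d ^ j n + c` is prime for all `j ∈ F` -/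
def cntG (d : ℕ) (c : ℤ) (D : ℕ) (F : Finset ℕ) (N : ℕ) : ℕ :=
  ((Icc N (D * N)).filter (fun n : ℕ => ∀ j ∈ F, ((d : ℤ) ^ j * (n : ℤ) + c).toNat.Prime)).card

theorem cntN_le_cntG {d E N : ℕ} {c : ℤ} (hE1 : 1 ≤ E) (hEN : E ≤ N) (F : Finset ℕ) :
    cntN (F.image (fun v => ((d : ℤ) ^ v, (d : ℤ) ^ v * (N + E) + c))) (4 * E * N) ≤
      cntG d c (6 * E) F N := by
  unfold cntN cntG
  rw [← card_image_of_injective (f := fun n : ℕ => n + N + E) _ (by
    intro m m' hm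
    simp only at hm
    omega)]
  apply card_le_card
  intro x hx
  obtain ⟨n, hn, rfl⟩ := mem_image.1 hx
  obtain ⟨h1, h2⟩ := mem_filter.1 hn
  rw [mem_Icc] at h1
  refine mem_filter.2 ⟨mem_Icc.2 ⟨by omega, ?_⟩, fun j hj => ?_⟩
  · have h3 : N + E ≤ 2 * E * N := by nlinarith
    nlinarith
  · have h3 := h2 _ (mem_image.2 ⟨j, hj, rfl⟩)
    simp only at h3
    have e : (d : ℤ) ^ j * ((n + N + E : ℕ) : ℤ) + c = (d : ℤ) ^ j * (n : ℤ) + ((d : ℤ) ^ j * (N + E) + c) := by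
      push_cast
      ring
    rw [e]
    exact h3

open Classical in
/-- pairs of positions for several geometric families at several scales -/
theorem geoPairs (R : ℕ) (ε : ℝ) (hε : 0 < ε) : ∃ n₀ B : ℕ, ∀ V : Finset ℕ, n₀ ≤ V.card →
    ∀ (d : Fin R → ℕ) (c : Fin R → ℤ), (∀ ρ, 2 ≤ d ρ ∧ IsCoprime (d ρ : ℤ) (c ρ)) →
    ∃ D N₀ : ℕ, ∀ N : Fin R → ℕ, (∀ ρ, N₀ ≤ N ρ) →
    (1 / (mR R : ℝ) - ε) * (V.card : ℝ) ^ 2 / 2 ≤ (((V ×ˢ V).filter (fun y => y.1 < y.2 ∧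
      ∀ ρ, (N ρ : ℝ) / (Real.log (N ρ)) ^ B ≤
        (cntG (d ρ) (c ρ) D {y.1, y.2} (N ρ) : ℝ))).card : ℝ) := by
  obtain ⟨n₀, C, P, h⟩ := pairsSC R ε hε
  refine ⟨n₀, C + 1, fun V hV d c hdc => ?_⟩
  set W := V.sup id with hW
  set E : ℕ := ∑ ρ, (d ρ ^ W + (c ρ).natAbs) + 1 with hE
  have hE1 : ∀ ρ, d ρ ^ W + (c ρ).natAbs ≤ E := fun ρ =>
    (Finset.single_le_sum (f := fun ρ => d ρ ^ W + (c ρ).natAbs) (fun _ _ => Nat.zero_le _)
      (mem_univ ρ)).trans (Nat.le_succ _)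
  have hE0 : 1 ≤ E := Nat.le_add_left _ _
  obtain ⟨N₀, hN₀⟩ := h E
  obtain ⟨N₁, hN₁⟩ := log_loss C (4 * E) (by omega)
  refine ⟨6 * E, N₀ + N₁ + E, fun N hN => ?_⟩
  have hNE : ∀ ρ, E ≤ N ρ := fun ρ => (Nat.le_add_left _ _).trans (hN ρ)
  have h1 := hN₀ (fun ρ => 4 * E * N ρ) (fun ρ => by
      have h2 := hN ρ
      have h3 : 1 * N ρ ≤ 4 * E * N ρ := Nat.mul_le_mul_right _ (by omega)
      show N₀ ≤ 4 * E * N ρ
      omega) V hV
    (fun ρ v => ((d ρ : ℤ) ^ v, (d ρ : ℤ) ^ v * (N ρ + E) + c ρ))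
    (fun ρ u _ v _ huv => by
      simp only [Prod.mk.injEq] at huv
      have h3 : d ρ ^ u = d ρ ^ v := by exact_mod_cast huv.1
      exact Nat.pow_right_injective (hdc ρ).1 h3)
    (fun ρ v hv => geo_adf (hdc ρ).1 (hdc ρ).2 ((Nat.le_add_right _ _).trans (hE1 ρ))
      ((Nat.le_add_left _ _).trans (hE1 ρ)) (Finset.le_sup (f := id) hv) (hNE ρ))
    (fun ρ p hp _ => by
      obtain ⟨r, hr⟩ := geo_loc (d := d ρ) (E := E) (N := N ρ) (hdc ρ).2 hp
      exact ⟨r, fun v _ => hr v⟩)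
  refine h1.trans ?_
  rw [Nat.cast_le]
  apply card_le_card
  intro y hy
  obtain ⟨h2, h3, h4⟩ := mem_filter.1 hy
  refine mem_filter.2 ⟨h2, h3, fun ρ => ?_⟩
  refine (hN₁ (N ρ) (by have := hN ρ; omega)).trans ((h4 ρ).trans ?_)
  rw [Nat.cast_le]
  have h5 := cntN_le_cntG (d := d ρ) (c := c ρ) hE0 (hNE ρ) {y.1, y.2}
  refine le_trans (le_of_eq ?_) h5
  congr 1
  rw [image_insert, image_singleton]

open Classical in
/-- tuples of positions for several geometric families at several scales -/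
theorem geoTuples (R k : ℕ) (ε : ℝ) (hε : 0 < ε) : ∃ n₀ B : ℕ, ∀ V : Finset ℕ, n₀ ≤ V.card →
    ∀ (d : Fin R → ℕ) (c : Fin R → ℤ), (∀ ρ, 2 ≤ d ρ ∧ IsCoprime (d ρ : ℤ) (c ρ)) →
    ∃ D N₀ : ℕ, ∀ N : Fin R → ℕ, (∀ ρ, N₀ ≤ N ρ) →
    ((5 / 18) ^ (R * k) - ε) * (V.card : ℝ) ^ (k + 1) ≤
      (((Fintype.piFinset (fun _ : Fin (k + 1) => V)).filter (fun y => Function.Injective y ∧
        ∀ ρ, (N ρ : ℝ) / (Real.log (N ρ)) ^ B ≤
        (cntG (d ρ) (c ρ) D (univ.image y) (N ρ) : ℝ))).card : ℝ) := by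
  obtain ⟨n₀, C, P, h⟩ := tuplesSC R k ε hε
  refine ⟨n₀, C + 1, fun V hV d c hdc => ?_⟩
  set W := V.sup id with hW
  set E : ℕ := ∑ ρ, (d ρ ^ W + (c ρ).natAbs) + 1 with hE
  have hE1 : ∀ ρ, d ρ ^ W + (c ρ).natAbs ≤ E := fun ρ =>
    (Finset.single_le_sum (f := fun ρ => d ρ ^ W + (c ρ).natAbs) (fun _ _ => Nat.zero_le _)
      (mem_univ ρ)).trans (Nat.le_succ _)
  have hE0 : 1 ≤ E := Nat.le_add_left _ _
  obtain ⟨N₀, hN₀⟩ := h E
  obtain ⟨N₁, hN₁⟩ := log_loss C (4 * E) (by omega)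
  refine ⟨6 * E, N₀ + N₁ + E, fun N hN => ?_⟩
  have hNE : ∀ ρ, E ≤ N ρ := fun ρ => (Nat.le_add_left _ _).trans (hN ρ)
  have h1 := hN₀ (fun ρ => 4 * E * N ρ) (fun ρ => by
      have h2 := hN ρ
      have h3 : 1 * N ρ ≤ 4 * E * N ρ := Nat.mul_le_mul_right _ (by omega)
      show N₀ ≤ 4 * E * N ρ
      omega) V hV
    (fun ρ v => ((d ρ : ℤ) ^ v, (d ρ : ℤ) ^ v * (N ρ + E) + c ρ))
    (fun ρ u _ v _ huv => by
      simp only [Prod.mk.injEq] at huv
      have h3 : d ρ ^ u = d ρ ^ v := by exact_mod_cast huv.1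
      exact Nat.pow_right_injective (hdc ρ).1 h3)
    (fun ρ v hv => geo_adf (hdc ρ).1 (hdc ρ).2 ((Nat.le_add_right _ _).trans (hE1 ρ))
      ((Nat.le_add_left _ _).trans (hE1 ρ)) (Finset.le_sup (f := id) hv) (hNE ρ))
    (fun ρ p hp _ => by
      obtain ⟨r, hr⟩ := geo_loc (d := d ρ) (E := E) (N := N ρ) (hdc ρ).2 hp
      exact ⟨r, fun v _ => hr v⟩)
  refine h1.trans ?_
  rw [Nat.cast_le]
  apply card_le_card
  intro y hy
  obtain ⟨h2, h3, h4⟩ := mem_filter.1 hy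
  refine mem_filter.2 ⟨h2, h3, fun ρ => ?_⟩
  refine (hN₁ (N ρ) (by have := hN ρ; omega)).trans ((h4 ρ).trans ?_)
  rw [Nat.cast_le]
  exact cntN_le_cntG (d := d ρ) (c := c ρ) hE0 (hNE ρ) (univ.image y)

open Classical in
theorem inj_card (k : ℕ) (F : Finset ℕ) :
    ((Fintype.piFinset (fun _ : Fin (k + 1) => F)).filter (fun y => Function.Injective y)).card =
      F.card.descFactorial (k + 1) := by
  have e1 : F.card.descFactorial (k + 1) = Fintype.card (Fin (k + 1) ↪ F) := by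
    rw [Fintype.card_embedding_eq, Fintype.card_coe, Fintype.card_fin]
  rw [e1, ← Fintype.card_coe]
  symm
  refine Fintype.card_congr ⟨fun e => ⟨fun i => (e i : ℕ), ?_⟩,
    fun u => ⟨fun i => ⟨u.1 i, ?_⟩, ?_⟩, ?_, ?_⟩
  · rw [mem_filter, Fintype.mem_piFinset]
    exact ⟨fun i => (e i).2, fun i j h => e.injective (Subtype.ext h)⟩
  · exact Fintype.mem_piFinset.1 (mem_filter.1 u.2).1 i
  · intro i j h
    exact (mem_filter.1 u.2).2 (congrArg Subtype.val h)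
  · intro e; ext i; rfl
  · intro u; rfl

open Classical in
/-- from tuples to subsets -/
theorem subsets_of_tuples {k : ℕ} {V : Finset ℕ} {Q : Finset ℕ → Prop} {δ : ℝ}
    (h : δ * (V.card : ℝ) ^ (k + 1) ≤
      (((Fintype.piFinset (fun _ : Fin (k + 1) => V)).filter (fun y => Function.Injective y ∧
        Q (univ.image y))).card : ℝ)) :
    δ * (V.card.choose (k + 1) : ℝ) ≤ (((V.powersetCard (k + 1)).filter Q).card : ℝ) := by
  set G := (V.powersetCard (k + 1)).filter Q with hG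
  rcases le_or_gt δ 0 with h0 | h0
  · exact (mul_nonpos_of_nonpos_of_nonneg h0 (Nat.cast_nonneg _)).trans (Nat.cast_nonneg _)
  set Y := (Fintype.piFinset (fun _ : Fin (k + 1) => V)).filter (fun y => Function.Injective y ∧
      Q (univ.image y)) with hY
  have h1 : Y.card ≤ (k + 1).factorial * (Y.image (fun y => univ.image y)).card := by
    apply card_le_mul_card_image
    intro F hF
    obtain ⟨y, hy, rfl⟩ := mem_image.1 hF
    have hyc : (univ.image y).card = k + 1 := by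
      rw [card_image_of_injective _ (mem_filter.1 hy).2.1, card_univ, Fintype.card_fin]
    have h2 : Y.filter (fun x => univ.image x = univ.image y) ⊆
        (Fintype.piFinset (fun _ : Fin (k + 1) => univ.image y)).filter
          (fun y => Function.Injective y) := by
      intro x hx
      obtain ⟨h3, h4⟩ := mem_filter.1 hx
      refine mem_filter.2 ⟨Fintype.mem_piFinset.2 (fun i => ?_), (mem_filter.1 h3).2.1⟩
      rw [← h4]
      exact mem_image_of_mem _ (mem_univ _)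
    refine (card_le_card h2).trans ?_
    rw [inj_card, hyc, Nat.descFactorial_self]
  have h2 : Y.image (fun y => univ.image y) ⊆ G := by
    intro F hF
    obtain ⟨y, hy, rfl⟩ := mem_image.1 hF
    obtain ⟨h3, h4, h5⟩ := mem_filter.1 hy
    refine mem_filter.2 ⟨mem_powersetCard.2 ⟨?_, ?_⟩, h5⟩
    · intro j hj
      obtain ⟨i, _, rfl⟩ := mem_image.1 hj
      exact Fintype.mem_piFinset.1 h3 i
    · rw [card_image_of_injective _ h4, card_univ, Fintype.card_fin]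
  have h3 : (Y.card : ℝ) ≤ (k + 1).factorial * (G.card : ℝ) := by
    exact_mod_cast h1.trans (Nat.mul_le_mul_left _ (card_le_card h2))
  have h4 : ((k + 1).factorial : ℝ) * (V.card.choose (k + 1) : ℝ) ≤ (V.card : ℝ) ^ (k + 1) := by
    have h5 : (k + 1).factorial * V.card.choose (k + 1) ≤ V.card ^ (k + 1) := by
      rw [← Nat.descFactorial_eq_factorial_mul_choose]
      exact Nat.descFactorial_le_pow _ _
    exact_mod_cast h5
  have h5 : (0 : ℝ) < ((k + 1).factorial : ℝ) := by exact_mod_cast Nat.factorial_pos _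
  have h6 := mul_le_mul_of_nonneg_left h4 h0.le
  have h7 : ((k + 1).factorial : ℝ) * (δ * (V.card.choose (k + 1) : ℝ)) ≤
      (k + 1).factorial * (G.card : ℝ) := by
    refine le_trans (le_of_eq ?_) (h6.trans (h.trans h3))
    ring
  exact le_of_mul_le_mul_left h7 h5

end Pool.Agent.R493.SC
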