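import Mathlib
import Pool.Agent.R493.SC.Geo
/-!
# Common differences of primes in several progressions at several scales
-/

namespace Pool.Agent.R493.SC

open Finset Filter
open Pool.Agent.Y827.GS (cntN cntN_anti Adf)
open Pool.Agent.R493.SI (mR mR_pos)

/-- the number of the primes `p ≡ a (mod q)` in `(x, D x]` with `p + d` prime -/
def cntS (q a d D x : ℕ) : ℕ :=
  ((Ioc x (D * x)).filter (fun p : ℕ => p ≡ a [MOD q] ∧ p.Prime ∧ (p + d).Prime)).card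

theorem shift_adf {Q q a v x : ℕ} (hq : 1 ≤ q) (hqQ : q ≤ Q) (ha : a.Coprime q) (haq : a ≤ q)
    (hqv : q ∣ v) (hvx : v ≤ x) (hQx : Q ≤ x) :
    Adf Q (2 * (Q + 1) * x) ((q : ℤ), ((q * x + a + v : ℕ) : ℤ)) := by
  refine ⟨by show (q : ℤ) ≠ 0; exact_mod_cast (by omega : q ≠ 0), ?_, ?_, ?_, ?_⟩
  · show |(q : ℤ)| ≤ Q
    rw [Nat.abs_cast]
    exact_mod_cast hqQ
  · show |((q * x + a + v : ℕ) : ℤ)| ≤ ((2 * (Q + 1) * x : ℕ) : ℤ)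
    rw [Nat.abs_cast]
    have h1 : q * x ≤ Q * x := Nat.mul_le_mul_right _ hqQ
    have h2 : q * x + a + v ≤ 2 * (Q + 1) * x := by nlinarith
    exact_mod_cast h2
  · show IsCoprime (q : ℤ) ((q * x + a + v : ℕ) : ℤ)
    rw [Nat.isCoprime_iff_coprime]
    obtain ⟨w, rfl⟩ := hqv
    have e : q * x + a + q * w = a + q * (x + w) := by ring
    rw [e]
    exact (Nat.coprime_add_mul_left_right q a (x + w)).2 ha.symm
  · intro t ht1 ht2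
    show ((2 * (Q + 1) * x : ℕ) : ℝ) / 24 ≤ ((q : ℤ) : ℝ) * t + (((q * x + a + v : ℕ) : ℤ) : ℝ)
    have h0 : (0 : ℝ) ≤ ((2 * (Q + 1) * x : ℕ) : ℝ) := Nat.cast_nonneg _
    have ht0 : 0 ≤ t := le_trans (by positivity) ht1
    have h1 : (1 : ℝ) ≤ ((q : ℤ) : ℝ) := by exact_mod_cast hq
    have h2 : t ≤ ((q : ℤ) : ℝ) * t := le_mul_of_one_le_left ht0 h1
    have h3 : (0 : ℝ) ≤ (((q * x + a + v : ℕ) : ℤ) : ℝ) := by
      rw [Int.cast_natCast]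
      exact Nat.cast_nonneg _
    linarith

theorem shift_loc {q a x p : ℕ} (ha : a.Coprime q) (hp : p.Prime) :
    ∃ r : ℤ, ∀ v : ℕ, p ∣ v → ¬ (p : ℤ) ∣ (q : ℤ) * r + ((q * x + a + v : ℕ) : ℤ) := by
  have key : ∀ (r : ℤ), (∃ v : ℕ, p ∣ v ∧ (p : ℤ) ∣ (q : ℤ) * r + ((q * x + a + v : ℕ) : ℤ)) →
      (p : ℤ) ∣ (q : ℤ) * r + ((q * x + a : ℕ) : ℤ) := by
    rintro r ⟨v, hv, hd⟩
    have e : (q : ℤ) * r + ((q * x + a + v : ℕ) : ℤ) = ((q : ℤ) * r + ((q * x + a : ℕ) : ℤ)) + (v : ℤ) := by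
      push_cast; ring
    rw [e] at hd
    exact (Int.dvd_add_left (by exact_mod_cast hv)).1 hd
  by_cases hpq : p ∣ q
  · refine ⟨0, fun v hv hd => ?_⟩
    have h1 := key 0 ⟨v, hv, hd⟩
    rw [mul_zero, zero_add] at h1
    have h2 : p ∣ q * x + a := by exact_mod_cast h1
    have h3 : p ∣ a := (Nat.dvd_add_right (hpq.mul_right _)).1 h2
    have h4 : p ∣ Nat.gcd a q := Nat.dvd_gcd h3 hpq
    rw [ha] at h4
    exact hp.one_lt.ne' (Nat.dvd_one.1 h4)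
  · by_cases h0 : (p : ℤ) ∣ ((q * x + a : ℕ) : ℤ)
    · refine ⟨1, fun v hv hd => hpq ?_⟩
      have h1 := key 1 ⟨v, hv, hd⟩
      rw [mul_one] at h1
      have h2 := (Int.dvd_add_left h0).1 h1
      exact_mod_cast h2
    · refine ⟨0, fun v hv hd => h0 ?_⟩
      have h1 := key 0 ⟨v, hv, hd⟩
      rwa [mul_zero, zero_add] at h1

theorem cntN_le_cntS {Q q a u v x : ℕ} (hq : 1 ≤ q) (hqQ : q ≤ Q) (haq : a ≤ q)
    (hqu : q ∣ u) (hux : u ≤ x) (hQx : Q ≤ x) (huv : u < v) :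
    cntN {((q : ℤ), ((q * x + a + u : ℕ) : ℤ)), ((q : ℤ), ((q * x + a + v : ℕ) : ℤ))} (2 * (Q + 1) * x) ≤
      cntS q a (v - u) (2 * (Q + 1) ^ 2) x := by
  unfold cntN cntS
  rw [← card_image_of_injective (f := fun n : ℕ => q * n + (q * x + a + u)) _ (by
    intro m m' hm
    have h : q * m = q * m' := by simpa using hm
    exact Nat.eq_of_mul_eq_mul_left (by omega) h)]
  apply card_le_card
  intro y hy
  obtain ⟨n, hn, rfl⟩ := mem_image.1 hy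
  obtain ⟨h1, h2⟩ := mem_filter.1 hn
  rw [mem_Icc] at h1
  have h3 := h2 _ (mem_insert_self _ _)
  have h4 := h2 _ (mem_insert_of_mem (mem_singleton_self _))
  have e : ∀ w : ℕ, ((q : ℤ) * (n : ℤ) + ((q * x + a + w : ℕ) : ℤ)).toNat = q * n + (q * x + a + w) := by
    intro w
    have : (q : ℤ) * (n : ℤ) + ((q * x + a + w : ℕ) : ℤ) = ((q * n + (q * x + a + w) : ℕ) : ℤ) := by
      push_cast; ring
    rw [this, Int.toNat_natCast]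
  simp only at h3 h4
  rw [e] at h3 h4
  refine mem_filter.2 ⟨mem_Ioc.2 ⟨?_, ?_⟩, ?_, h3, ?_⟩
  · have h5 : 1 * 1 ≤ q * n := Nat.mul_le_mul hq h1.1
    have h6 : 1 * x ≤ q * x := Nat.mul_le_mul_right _ hq
    omega
  · have h5 : q * n ≤ Q * (2 * (Q + 1) * x) := Nat.mul_le_mul hqQ h1.2
    have h6 : q * x ≤ Q * x := Nat.mul_le_mul_right _ hqQ
    nlinarith
  · have h5 : q * n + (q * x + a + u) = a + (q * (n + x) + u) := by ring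
    rw [h5]
    have h6 : q * (n + x) + u ≡ 0 [MOD q] :=
      (Nat.modEq_zero_iff_dvd).2 (dvd_add (dvd_mul_right _ _) hqu)
    exact Nat.ModEq.add_left a h6
  · have h5 : q * n + (q * x + a + u) + (v - u) = q * n + (q * x + a + v) := by omega
    rw [h5]
    exact h4

open Classical in
/-- common differences of primes in several progressions at several scales -/
theorem shiftPairs (R : ℕ) (ε : ℝ) (hε : 0 < ε) : ∃ n₀ B P : ℕ, 0 < P ∧ ∀ Q : ℕ, ∃ D N₀ : ℕ,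
    ∀ q a x : Fin R → ℕ, (∀ ρ, 1 ≤ q ρ ∧ q ρ ≤ Q ∧ (a ρ).Coprime (q ρ) ∧ N₀ ≤ x ρ) →
    ∀ V : Finset ℕ, n₀ ≤ V.card → (∀ v ∈ V, P ∣ v ∧ ∀ ρ, q ρ ∣ v ∧ v ≤ x ρ) →
    (1 / (mR R : ℝ) - ε) * (V.card : ℝ) ^ 2 / 2 ≤ (((V ×ˢ V).filter (fun y => y.1 < y.2 ∧
      ∀ ρ, (x ρ : ℝ) / (Real.log (x ρ)) ^ B ≤
        (cntS (q ρ) (a ρ) (y.2 - y.1) D (x ρ) : ℝ))).card : ℝ) := by
  obtain ⟨n₀, C, P, h⟩ := pairsSC R ε hε
  refine ⟨n₀, C + 1, P.factorial, Nat.factorial_pos _, fun Q => ?_⟩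
  obtain ⟨N₀, hN₀⟩ := h Q
  obtain ⟨N₁, hN₁⟩ := log_loss C (2 * (Q + 1)) (by omega)
  refine ⟨2 * (Q + 1) ^ 2, N₀ + N₁ + Q, fun q a x hqa V hV hVd => ?_⟩
  have hax : ∀ ρ, a ρ % q ρ ≤ q ρ := fun ρ => (Nat.mod_lt _ (hqa ρ).1).le
  have hac : ∀ ρ, (a ρ % q ρ).Coprime (q ρ) := fun ρ => by
    have h1 := (hqa ρ).2.2.1
    unfold Nat.Coprime at h1 ⊢
    rw [← Nat.gcd_rec, Nat.gcd_comm]
    exact h1
  have hxQ : ∀ ρ, Q ≤ x ρ := fun ρ => (Nat.le_add_left _ _).trans (hqa ρ).2.2.2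
  have h1 := hN₀ (fun ρ => 2 * (Q + 1) * x ρ) (fun ρ => by
      have h2 := (hqa ρ).2.2.2
      have h3 : 1 * x ρ ≤ 2 * (Q + 1) * x ρ := Nat.mul_le_mul_right _ (by omega)
      show N₀ ≤ 2 * (Q + 1) * x ρ
      omega) V hV
    (fun ρ v => ((q ρ : ℤ), ((q ρ * x ρ + a ρ % q ρ + v : ℕ) : ℤ)))
    (fun ρ u _ v _ huv => by
      simp only [Prod.mk.injEq, Nat.cast_inj, true_and] at huv
      exact Nat.add_left_cancel huv)
    (fun ρ v hv => shift_adf (hqa ρ).1 (hqa ρ).2.1 (hac ρ) (hax ρ) ((hVd v hv).2 ρ).1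
      ((hVd v hv).2 ρ).2 (hxQ ρ))
    (fun ρ p hp hpP => by
      obtain ⟨r, hr⟩ := shift_loc (x := x ρ) (hac ρ) hp
      exact ⟨r, fun v hv => hr v (((Nat.Prime.dvd_factorial hp).2 hpP).trans (hVd v hv).1)⟩)
  refine h1.trans ?_
  rw [Nat.cast_le]
  apply card_le_card
  intro y hy
  obtain ⟨h2, h3, h4⟩ := mem_filter.1 hy
  refine mem_filter.2 ⟨h2, h3, fun ρ => ?_⟩
  have h6 := mem_product.1 h2
  refine (hN₁ (x ρ) (by have := (hqa ρ).2.2.2; omega)).trans ((h4 ρ).trans ?_)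
  rw [Nat.cast_le]
  refine (cntN_le_cntS (hqa ρ).1 (hqa ρ).2.1 (hax ρ) ((hVd _ h6.1).2 ρ).1
    ((hVd _ h6.1).2 ρ).2 (hxQ ρ) h3).trans (le_of_eq ?_)
  unfold cntS
  congr 1
  apply filter_congr
  intro p _
  have h7 : p ≡ a ρ % q ρ [MOD q ρ] ↔ p ≡ a ρ [MOD q ρ] := by
    unfold Nat.ModEq
    rw [Nat.mod_mod]
  rw [h7]

end Pool.Agent.R493.SC
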