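import Mathlib
import Pool.Agent.R493.SC.Shift
/-!
# Common prime tuples in several progressions at several scales
-/

namespace Pool.Agent.R493.SC

open Finset Filter
open Pool.Agent.Y827.GS (cntN Adf)

/-- the number of the `n ≡ a (mod q)` in `(x, D x]` with `n + v` prime for all `v ∈ F` -/
def cntT (q a D : ℕ) (F : Finset ℕ) (x : ℕ) : ℕ :=
  ((Ioc x (D * x)).filter (fun n : ℕ => n ≡ a [MOD q] ∧ ∀ v ∈ F, (n + v).Prime)).card

theorem cntN_le_cntT {Q q a x : ℕ} (F : Finset ℕ) (hq : 1 ≤ q) (hqQ : q ≤ Q) (haq : a ≤ q)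
    (hQx : Q ≤ x) :
    cntN (F.image (fun v => ((q : ℤ), ((q * x + a + v : ℕ) : ℤ)))) (2 * (Q + 1) * x) ≤
      cntT q a (2 * (Q + 1) ^ 2) F x := by
  unfold cntN cntT
  rw [← card_image_of_injective (f := fun n : ℕ => q * n + (q * x + a)) _ (by
    intro m m' hm
    have h : q * m = q * m' := by simpa using hm
    exact Nat.eq_of_mul_eq_mul_left (by omega) h)]
  apply card_le_card
  intro y hy
  obtain ⟨n, hn, rfl⟩ := mem_image.1 hy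
  obtain ⟨h1, h2⟩ := mem_filter.1 hn
  rw [mem_Icc] at h1
  refine mem_filter.2 ⟨mem_Ioc.2 ⟨?_, ?_⟩, ?_, fun v hv => ?_⟩
  · have h5 : 1 * 1 ≤ q * n := Nat.mul_le_mul hq h1.1
    have h6 : 1 * x ≤ q * x := Nat.mul_le_mul_right _ hq
    omega
  · have h5 : q * n ≤ Q * (2 * (Q + 1) * x) := Nat.mul_le_mul hqQ h1.2
    have h6 : q * x ≤ Q * x := Nat.mul_le_mul_right _ hqQ
    nlinarith
  · have h5 : q * n + (q * x + a) = a + q * (n + x) := by ring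
    rw [h5]
    have h6 : q * (n + x) ≡ 0 [MOD q] :=
      (Nat.modEq_zero_iff_dvd).2 (dvd_mul_right _ _)
    exact Nat.ModEq.add_left a h6
  · have h3 := h2 _ (mem_image.2 ⟨v, hv, rfl⟩)
    simp only at h3
    have e : ((q : ℤ) * (n : ℤ) + ((q * x + a + v : ℕ) : ℤ)).toNat = q * n + (q * x + a) + v := by
      have : (q : ℤ) * (n : ℤ) + ((q * x + a + v : ℕ) : ℤ) = ((q * n + (q * x + a) + v : ℕ) : ℤ) := by
        push_cast; ring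
      rw [this, Int.toNat_natCast]
    rwa [e] at h3

open Classical in
/-- common prime tuples in several progressions at several scales -/
theorem shiftTuples (R k : ℕ) (ε : ℝ) (hε : 0 < ε) : ∃ n₀ B P : ℕ, 0 < P ∧ ∀ Q : ℕ, ∃ D N₀ : ℕ,
    ∀ q a x : Fin R → ℕ, (∀ ρ, 1 ≤ q ρ ∧ q ρ ≤ Q ∧ (a ρ).Coprime (q ρ) ∧ N₀ ≤ x ρ) →
    ∀ V : Finset ℕ, n₀ ≤ V.card → (∀ v ∈ V, P ∣ v ∧ ∀ ρ, q ρ ∣ v ∧ v ≤ x ρ) →
    ((5 / 18) ^ (R * k) - ε) * (V.card.choose (k + 1) : ℝ) ≤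
      (((V.powersetCard (k + 1)).filter (fun F => ∀ ρ, (x ρ : ℝ) / (Real.log (x ρ)) ^ B ≤
        (cntT (q ρ) (a ρ) D F (x ρ) : ℝ))).card : ℝ) := by
  obtain ⟨n₀, C, P, h⟩ := tuplesSC R k ε hε
  refine ⟨n₀, C + 1, P.factorial, Nat.factorial_pos _, fun Q => ?_⟩
  obtain ⟨N₀, hN₀⟩ := h Q
  obtain ⟨N₁, hN₁⟩ := log_loss C (2 * (Q + 1)) (by omega)
  refine ⟨2 * (Q + 1) ^ 2, N₀ + N₁ + Q, fun q a x hqa V hV hVd => ?_⟩
  have hax : ∀ ρ, a ρ % q ρ ≤ q ρ := fun ρ => (Nat.mod_lt _ (hqa ρ).1).le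
  have hac : ∀ ρ, (a ρ % q ρ).Coprime (q ρ) := fun ρ => by
    have h1 := (hqa ρ).2.2.1
    unfold Nat.Coprime at h1 ⊢
    rw [← Nat.gcd_rec, Nat.gcd_comm]
    exact h1
  have hxQ : ∀ ρ, Q ≤ x ρ := fun ρ => (Nat.le_add_left _ _).trans (hqa ρ).2.2.2
  have h1 := hN₀ (fun ρ => 2 * (Q + 1) * x ρ) (fun ρ => by
      have h2 := (hqa ρ).2.2.2
      have h3 : 1 * x ρ ≤ 2 * (Q + 1) * x ρ := Nat.mul_le_mul_right _ (by omega)
      show N₀ ≤ 2 * (Q + 1) * x ρ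
      omega) V hV
    (fun ρ v => ((q ρ : ℤ), ((q ρ * x ρ + a ρ % q ρ + v : ℕ) : ℤ)))
    (fun ρ u _ v _ huv => by
      simp only [Prod.mk.injEq, Nat.cast_inj, true_and] at huv
      exact Nat.add_left_cancel huv)
    (fun ρ v hv => shift_adf (hqa ρ).1 (hqa ρ).2.1 (hac ρ) (hax ρ) ((hVd v hv).2 ρ).1
      ((hVd v hv).2 ρ).2 (hxQ ρ))
    (fun ρ p hp hpP => by
      obtain ⟨r, hr⟩ := shift_loc (x := x ρ) (hac ρ) hp
      exact ⟨r, fun v hv => hr v (((Nat.Prime.dvd_factorial hp).2 hpP).trans (hVd v hv).1)⟩)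
  suffices h2 : ((5 / 18) ^ (R * k) - ε) * (V.card : ℝ) ^ (k + 1) ≤
      (((Fintype.piFinset (fun _ : Fin (k + 1) => V)).filter (fun y => Function.Injective y ∧
        ∀ ρ, (x ρ : ℝ) / (Real.log (x ρ)) ^ (C + 1) ≤
          (cntT (q ρ) (a ρ) (2 * (Q + 1) ^ 2) (univ.image y) (x ρ) : ℝ))).card : ℝ) by
    have h3 := subsets_of_tuples (k := k) (V := V) (δ := (5 / 18) ^ (R * k) - ε)
      (Q := fun F => ∀ ρ, (x ρ : ℝ) / (Real.log (x ρ)) ^ (C + 1) ≤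
        (cntT (q ρ) (a ρ) (2 * (Q + 1) ^ 2) F (x ρ) : ℝ)) (by convert h2)
    convert h3
  refine h1.trans ?_
  rw [Nat.cast_le]
  apply card_le_card
  intro y hy
  obtain ⟨h2, h3, h4⟩ := mem_filter.1 hy
  refine mem_filter.2 ⟨h2, h3, fun ρ => ?_⟩
  refine (hN₁ (x ρ) (by have := (hqa ρ).2.2.2; omega)).trans ((h4 ρ).trans ?_)
  rw [Nat.cast_le]
  refine (cntN_le_cntT (univ.image y) (hqa ρ).1 (hqa ρ).2.1 (hax ρ) (hxQ ρ)).trans (le_of_eq ?_)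
  unfold cntT
  congr 1
  apply filter_congr
  intro p _
  have h7 : p ≡ a ρ % q ρ [MOD q ρ] ↔ p ≡ a ρ [MOD q ρ] := by
    unfold Nat.ModEq
    rw [Nat.mod_mod]
  rw [h7]

end Pool.Agent.R493.SC
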